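import Mathlib
import Pool.Agent.Helper51.SC.Defs

set_option autoImplicit false

/-!
# Functions into `ω₁` with at most `ℵ₁` nonzero values
-/

namespace Pool.Agent.Helper90.SK

open Set Cardinal Filter Topology

/-- The set of all countable ordinals. -/
def Om : Type := (Cardinal.aleph.{0} 1).ord.ToType

noncomputable instance : LinearOrder Om :=
  inferInstanceAs (LinearOrder (Cardinal.aleph.{0} 1).ord.ToType)

instance : WellFoundedLT Om :=
  inferInstanceAs (WellFoundedLT (Cardinal.aleph.{0} 1).ord.ToType)

/-- The order topology on `ω₁`. -/
noncomputable instance : TopologicalSpace Om := Preorder.topology Om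

instance : OrderTopology Om := ⟨rfl⟩

theorem mk_Om : #Om = Cardinal.aleph.{0} 1 := Cardinal.mk_ord_toType _

instance : Nonempty Om := by
  rw [← Cardinal.mk_ne_zero_iff, mk_Om]
  exact (Cardinal.aleph_pos 1).ne'

/-- The least element of `Om` is the ordinal `0`. -/
noncomputable instance : OrderBot Om where
  bot := wellFounded_lt.min (Set.univ : Set Om) Set.univ_nonempty
  bot_le a := wellFounded_lt.min_le (Set.mem_univ a)

/-- All functions from `I` to `ω₁` which take at most `ℵ₁` nonzero values. -/
def Pow (I : Type) : Type := {x : I → Om // #{i : I | x i ≠ ⊥} ≤ Cardinal.aleph.{0} 1}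

/-- The topology of pointwise convergence (`ω₁` with the order topology). -/
noncomputable instance (I : Type) : TopologicalSpace (Pow I) :=
  inferInstanceAs (TopologicalSpace {x : I → Om // #{i : I | x i ≠ ⊥} ≤ Cardinal.aleph.{0} 1})

end Pool.Agent.Helper90.SK
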