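import Mathlib
import Pool.Agent.Helper90.SK.Defs

set_option autoImplicit false

namespace Pool.Agent.Helper90.SK

open Set Cardinal Filter Topology

theorem countable_Iio_Om (a : Om) : (Iio a).Countable := by
  have hcard : #Om = Cardinal.aleph.{0} 1 := mk_Om
  have h : #(Iio a) < Cardinal.aleph.{0} 1 := by
    rw [← hcard]
    refine Cardinal.mk_Iio_lt a ?_
    rw [hcard]
    exact (Ordinal.type_toType (Cardinal.aleph.{0} 1).ord).symm
  rw [← Cardinal.le_aleph0_iff_set_countable]
  rw [← Cardinal.succ_aleph0] at h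
  exact Order.lt_succ_iff.mp h

theorem countable_Iic_Om (a : Om) : (Iic a).Countable := by
  rw [← Iio_union_right]
  exact (countable_Iio_Om a).union (countable_singleton a)

theorem uncountable_Om : ¬ (Set.univ : Set Om).Countable := by
  rw [← Cardinal.le_aleph0_iff_set_countable, Cardinal.mk_univ, mk_Om, not_le]
  exact Cardinal.aleph0_lt_aleph_one

theorem bddAbove_Om (s : Set Om) (hs : s.Countable) : BddAbove s := by
  by_contra h
  apply uncountable_Om
  have h1 : (⋃ a ∈ s, Iic a).Countable := hs.biUnion (fun a _ => countable_Iic_Om a)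
  refine h1.mono (fun z _ => ?_)
  rw [not_bddAbove_iff] at h
  obtain ⟨y, hy, hzy⟩ := h z
  exact mem_biUnion hy hzy.le

instance : NoMaxOrder Om := by
  refine ⟨fun a => ?_⟩
  by_contra h
  push Not at h
  apply uncountable_Om
  refine (countable_Iic_Om a).mono (fun z _ => h z)

instance : Nontrivial Om := by
  obtain ⟨b, hb⟩ := exists_gt (⊥ : Om)
  exact ⟨⟨_, _, hb.ne⟩⟩

theorem isClopen_Iic_Om (a : Om) : IsClopen (Iic a) := by
  refine ⟨isClosed_Iic, ?_⟩
  have hne : (Ioi a).Nonempty := exists_gt a
  have h : Iic a = Iio (wellFounded_lt.min (Ioi a) hne) := by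
    ext z
    constructor
    · intro hz
      exact lt_of_le_of_lt (mem_Iic.mp hz) (mem_Ioi.mp (wellFounded_lt.min_mem _ hne))
    · intro hz
      by_contra hcon
      rw [mem_Iic, not_le] at hcon
      exact absurd hz (not_lt.mpr (wellFounded_lt.min_le hcon))
  rw [h]
  exact isOpen_Iio

theorem isCompact_Iic_Om (a : Om) : IsCompact (Iic a) := by
  let _ : ConditionallyCompleteLinearOrderBot Om :=
    WellFoundedLT.conditionallyCompleteLinearOrderBot Om
  have h : Iic a = Icc ⊥ a := by simp
  rw [h]
  exact isCompact_Icc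

instance : T35Space Om := inferInstance

variable {I : Type}

instance : T35Space (Pow I) :=
  inferInstanceAs (T35Space {x : I → Om // #{i : I | x i ≠ ⊥} ≤ Cardinal.aleph.{0} 1})

/-- At most `ℵ₁` elements. -/
def Small (D : Set I) : Prop := #D ≤ Cardinal.aleph.{0} 1

theorem Small.mono {D E : Set I} (h : Small E) (hDE : D ⊆ E) : Small D :=
  (Cardinal.mk_le_mk_of_subset hDE).trans h

theorem Small.union {D E : Set I} (h1 : Small D) (h2 : Small E) : Small (D ∪ E) := by
  refine (Cardinal.mk_union_le D E).trans ?_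
  refine (add_le_add h1 h2).trans ?_
  rw [Cardinal.add_eq_self (Cardinal.aleph0_le_aleph 1)]

theorem Small.iUnion {J : Type} (hJ : #J ≤ Cardinal.aleph.{0} 1) {D : J → Set I}
    (h : ∀ j, Small (D j)) : Small (⋃ j, D j) := by
  refine (Cardinal.mk_iUnion_le (fun j => D j)).trans ?_
  refine (mul_le_mul' hJ (ciSup_le' h)).trans ?_
  rw [Cardinal.mul_eq_self (Cardinal.aleph0_le_aleph 1)]

theorem Small.exists_notMem (hI : Cardinal.aleph.{0} 1 < #I) {D : Set I} (h : Small D) :
    ∃ b, b ∉ D := by
  by_contra hcon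
  push Not at hcon
  have : D = Set.univ := eq_univ_of_forall hcon
  rw [Small, this, Cardinal.mk_univ] at h
  exact absurd hI (not_lt.mpr h)

/-- The support. -/
def supp (x : Pow I) : Set I := {i | x.1 i ≠ ⊥}

theorem small_supp (x : Pow I) : Small (supp x) := x.2

theorem notMem_supp {x : Pow I} {i : I} : i ∉ supp x ↔ x.1 i = ⊥ := by
  simp [supp]

/-- All points agreeing with `f` on `D`. -/
def cyl (D : Set I) (f : Pow I) : Set (Pow I) := {x | ∀ i ∈ D, x.1 i = f.1 i}

theorem mem_cyl {D : Set I} {f x : Pow I} : x ∈ cyl D f ↔ ∀ i ∈ D, x.1 i = f.1 i := Iff.rfl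

theorem self_mem_cyl (D : Set I) (f : Pow I) : f ∈ cyl D f := fun _ _ => rfl

theorem cyl_mono {D E : Set I} (h : D ⊆ E) (f : Pow I) : cyl E f ⊆ cyl D f :=
  fun _ hx i hi => hx i (h hi)

theorem cyl_subset {D E : Set I} (h : D ⊆ E) {f g : Pow I} (hg : g ∈ cyl D f) :
    cyl E g ⊆ cyl D f := fun x hx i hi => (hx i (h hi)).trans (hg i hi)

theorem cyl_eq {D : Set I} {f g : Pow I} (hg : g ∈ cyl D f) : cyl D g = cyl D f :=
  Subset.antisymm (cyl_subset subset_rfl hg)
    (fun x hx i hi => (hx i hi).trans (hg i hi).symm)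

theorem continuous_eval (i : I) : Continuous (fun x : Pow I => x.1 i) :=
  (continuous_apply i).comp continuous_subtype_val

theorem isClosed_cyl (D : Set I) (f : Pow I) : IsClosed (cyl D f) := by
  have h : cyl D f = ⋂ i ∈ D, {x : Pow I | x.1 i = f.1 i} := by
    ext x; simp [cyl]
  rw [h]
  exact isClosed_biInter (fun i _ => isClosed_eq (continuous_eval i) continuous_const)

theorem cyl_nonempty (D : Set I) (f : Pow I) : (cyl D f).Nonempty := ⟨f, self_mem_cyl D f⟩

/-- Pointwise eventually constant sequences converge. -/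
theorem tendsto_of_eventually {y : ℕ → Pow I} {x : Pow I}
    (h : ∀ i, ∀ᶠ n in atTop, (y n).1 i = x.1 i) : Tendsto y atTop (𝓝 x) := by
  have : Tendsto (fun n => (y n).1) atTop (𝓝 x.1) := by
    rw [tendsto_pi_nhds]
    intro i
    refine tendsto_const_nhds.congr' ?_
    filter_upwards [h i] with n hn
    exact hn.symm
  exact tendsto_subtype_rng.mpr this

theorem isClosed_seq {y : ℕ → Pow I} {x : Pow I} (h : Tendsto y atTop (𝓝 x)) :
    IsClosed (insert x (range y)) := h.isCompact_insert_range.isClosed

/-- A point with prescribed values on a small set and zero elsewhere. -/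
def mk' (D : Set I) (hD : Small D) (f : I → Om) (hf : ∀ i ∉ D, f i = ⊥) : Pow I :=
  ⟨f, hD.mono (fun i (hi : f i ≠ ⊥) => by by_contra hcon; exact hi (hf i hcon))⟩

/-- The limit of a coherent chain. -/
theorem exists_lim {J : Type} [LinearOrder J] (D : J → Set I) (g : J → Pow I) (hD : Monotone D)
    (hg : ∀ j k, j ≤ k → g k ∈ cyl (D j) (g j)) (hs : Small (⋃ j, D j)) :
    ∃ x : Pow I, (∀ j, x ∈ cyl (D j) (g j)) ∧ supp x ⊆ ⋃ j, D j := by
  classical
  have hh : ∀ i (j k : J), i ∈ D j → i ∈ D k → (g j).1 i = (g k).1 i := by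
    intro i j k hj hk
    rcases le_total j k with h | h
    · exact (hg j k h i hj).symm
    · exact hg k j h i hk
  let f : I → Om := fun i => if h : ∃ j, i ∈ D j then (g h.choose).1 i else ⊥
  have hf : ∀ i ∉ ⋃ j, D j, f i = ⊥ := by
    intro i hi
    have : ¬ ∃ j, i ∈ D j := by simpa using hi
    simp only [f, this, dif_neg, not_false_eq_true]
  refine ⟨mk' _ hs f hf, ?_, ?_⟩
  · intro j i hi
    have h : ∃ j, i ∈ D j := ⟨j, hi⟩
    change f i = _
    simp only [f, dif_pos h]
    exact hh i _ _ h.choose_spec hi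
  · intro i hi
    by_contra hcon
    exact hi (hf i hcon)

/-- Every countable set is contained in a compact set. -/
theorem exists_compact (s : Set (Pow I)) (hs : s.Countable) : ∃ K : Set (Pow I), IsCompact K ∧ s ⊆ K := by
  classical
  have hu : ∀ i : I, BddAbove ((fun x : Pow I => x.1 i) '' s) := fun i =>
    bddAbove_Om _ (hs.image _)
  let D : Set I := ⋃ x : s, supp x.1
  have hDs : Small D := by
    have : Small (⋃ x : s, supp x.1) := by
      have hcard : #s ≤ Cardinal.aleph.{0} 1 :=
        (Cardinal.le_aleph0_iff_set_countable.mpr hs).trans (Cardinal.aleph0_le_aleph 1)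
      exact Small.iUnion hcard (fun x => small_supp x.1)
    exact this
  let u : I → Om := fun i => if i ∈ D then (hu i).choose else ⊥
  let K : Set (Pow I) := {x | ∀ i, x.1 i ≤ u i}
  refine ⟨K, ?_, ?_⟩
  · have hind : @IsEmbedding (Pow I) (I → Om) _ _ (fun x => x.1) := IsEmbedding.subtypeVal
    refine hind.isCompact_iff.mpr ?_
    have : (fun x : Pow I => x.1) '' K = Set.pi Set.univ (fun i => Iic (u i)) := by
      ext x
      constructor
      · rintro ⟨y, hy, rfl⟩ i _
        exact hy i
      · intro hx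
        have hx' : ∀ i ∉ D, x i = ⊥ := by
          intro i hi
          have h1 : x i ≤ u i := hx i (Set.mem_univ i)
          simp only [u, hi, if_false] at h1
          exact le_bot_iff.mp h1
        exact ⟨mk' D hDs x hx', fun i => hx i (Set.mem_univ i), rfl⟩
    rw [this]
    exact isCompact_univ_pi (fun i => isCompact_Iic_Om (u i))
  · intro x hx i
    by_cases hi : i ∈ D
    · simp only [u, hi, if_true]
      exact (hu i).choose_spec ⟨x, hx, rfl⟩
    · have : x.1 i = ⊥ := by
        by_contra hcon
        exact hi (mem_iUnion.mpr ⟨⟨x, hx⟩, hcon⟩)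
      rw [this]
      exact bot_le

theorem isCompact_closure_countable (s : Set (Pow I)) (hs : s.Countable) :
    IsCompact (closure s) := by
  obtain ⟨K, hK, hsK⟩ := exists_compact s hs
  exact hK.of_isClosed_subset isClosed_closure (closure_minimal hsK hK.isClosed)

theorem countablyCompact_Pow : Pool.Agent.Helper51.SC.CountablyCompact (Pow I) := by
  intro s hs
  obtain ⟨t, hts, htinf, htc⟩ : ∃ t ⊆ s, t.Infinite ∧ t.Countable := by
    refine ⟨range (fun n => (hs.natEmbedding s n : Pow I)), ?_, ?_, countable_range _⟩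
    · rintro _ ⟨n, rfl⟩
      exact (hs.natEmbedding s n).2
    · exact infinite_range_of_injective
        (Subtype.val_injective.comp (hs.natEmbedding s).injective)
  obtain ⟨K, hK, htK⟩ := exists_compact t htc
  obtain ⟨x, -, hx⟩ := htinf.exists_accPt_of_subset_isCompact hK htK
  exact ⟨x, hx.mono (principal_mono.mpr hts)⟩

end Pool.Agent.Helper90.SK
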