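import Mathlib
import Pool.Agent.Helper90.SK.Basic

set_option autoImplicit false

/-!
# Splitting: below every condition there are two conditions whose cylinders are separated
-/

namespace Pool.Agent.Helper90.SK

open Set Cardinal Filter Topology

variable {I : Type}

/-- All nonempty closed sets have a least and a greatest element. -/
def HS (r : LinearOrder (Pow I)) : Prop :=
  ∀ C : Set (Pow I), IsClosed C → C.Nonempty →
    (∃ m ∈ C, ∀ y ∈ C, r.le m y) ∧ (∃ m ∈ C, ∀ y ∈ C, r.le y m)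

/-- The reversed order. -/
@[reducible] def rev (r : LinearOrder (Pow I)) : LinearOrder (Pow I) :=
  @OrderDual.instLinearOrder (Pow I) r

theorem HS.rev {r : LinearOrder (Pow I)} (h : HS r) : HS (rev r) :=
  fun C hC hne => ⟨(h C hC hne).2, (h C hC hne).1⟩

section

variable [LO : LinearOrder (Pow I)]

/-- A strictly increasing sequence above its limit contradicts `HS`. -/
theorem no_inc (hS : HS LO) {y : ℕ → Pow I} {x : Pow I} (ht : Tendsto y atTop (𝓝 x))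
    (hx : ∀ n, x < y n) (hy : ∀ n, y n < y (n + 1)) : False := by
  obtain ⟨m, hm, hmax⟩ := (hS _ (isClosed_seq ht) (insert_nonempty _ _)).2
  have hmax' : ∀ z ∈ insert x (range y), z ≤ m := hmax
  rcases hm with rfl | ⟨n, rfl⟩
  · exact absurd (hmax' _ (Or.inr ⟨0, rfl⟩)) (not_le.mpr (hx 0))
  · exact absurd (hmax' _ (Or.inr ⟨n + 1, rfl⟩)) (not_le.mpr (hy n))

/-- A weakly decreasing sequence strictly below its limit contradicts `HS`. -/
theorem no_dec (hS : HS LO) {y : ℕ → Pow I} {x : Pow I} (ht : Tendsto y atTop (𝓝 x))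
    (hx : ∀ n, y n < x) (hy : ∀ n, y (n + 1) ≤ y n) : False := by
  obtain ⟨m, hm, hmin⟩ := (hS _ (isClosed_seq ht) (insert_nonempty _ _)).1
  have hmin' : ∀ z ∈ insert x (range y), m ≤ z := hmin
  rcases hm with rfl | ⟨n, rfl⟩
  · exact absurd (hmin' _ (Or.inr ⟨0, rfl⟩)) (not_le.mpr (hx 0))
  · have hanti : Antitone y := antitone_nat_of_succ_le hy
    have hc : ∀ k, n ≤ k → y k = y n := fun k hk =>
      le_antisymm (hanti hk) (hmin' _ (Or.inr ⟨k, rfl⟩))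
    have ht' : Tendsto y atTop (𝓝 (y n)) := by
      refine tendsto_const_nhds.congr' ?_
      filter_upwards [eventually_ge_atTop n] with k hk
      exact (hc k hk).symm
    exact absurd (tendsto_nhds_unique ht ht') (hx n).ne'

/-- If a set `A` meets all extensions of a condition cofinally, then `HS` fails. -/
theorem no_cofinal (hS : HS LO) (A : Set (Pow I)) (D : Set I) (f w : Pow I) (hD : Small D)
    (hw : w ∈ A) (hwf : w ∈ cyl D f)
    (h : ∀ E g, Small E → D ⊆ E → g ∈ cyl D f → ∀ y ∈ A, y ∈ cyl D f →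
      ∃ y' ∈ A, y' ∈ cyl E g ∧ y < y') : False := by
  classical
  -- the step: from a small set `E ⊇ D ∪ supp w` and `y ∈ A ∩ cyl D f`
  have hstep : ∀ q : {q : Set I × Pow I // Small q.1 ∧ D ⊆ q.1 ∧ supp w ⊆ q.1 ∧ q.2 ∈ A ∧
      q.2 ∈ cyl D f ∧ supp q.2 ⊆ q.1 ∧ w ≤ q.2},
      ∃ q' : {q : Set I × Pow I // Small q.1 ∧ D ⊆ q.1 ∧ supp w ⊆ q.1 ∧ q.2 ∈ A ∧
      q.2 ∈ cyl D f ∧ supp q.2 ⊆ q.1 ∧ w ≤ q.2}, q.1.1 ⊆ q'.1.1 ∧ q'.1.2 ∈ cyl q.1.1 w ∧
        q.1.2 < q'.1.2 := by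
    rintro ⟨⟨E, y⟩, hE, hDE, hwE, hyA, hyf, hyE, hwy⟩
    obtain ⟨y', hy'A, hy'E, hlt⟩ := h E w hE hDE hwf y hyA hyf
    refine ⟨⟨⟨E ∪ supp y', y'⟩, hE.union (small_supp y'), hDE.trans subset_union_left,
      hwE.trans subset_union_left, hy'A, ?_, subset_union_right, hwy.trans hlt.le⟩,
      subset_union_left, hy'E, hlt⟩
    exact cyl_subset hDE hwf hy'E
  choose nx hnx using hstep
  let q0 : {q : Set I × Pow I // Small q.1 ∧ D ⊆ q.1 ∧ supp w ⊆ q.1 ∧ q.2 ∈ A ∧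
      q.2 ∈ cyl D f ∧ supp q.2 ⊆ q.1 ∧ w ≤ q.2} :=
    ⟨⟨D ∪ supp w, w⟩, hD.union (small_supp w), subset_union_left, subset_union_right, hw, hwf,
      subset_union_right, le_refl _⟩
  let q : ℕ → {q : Set I × Pow I // Small q.1 ∧ D ⊆ q.1 ∧ supp w ⊆ q.1 ∧ q.2 ∈ A ∧
      q.2 ∈ cyl D f ∧ supp q.2 ⊆ q.1 ∧ w ≤ q.2} := fun n => nx^[n] q0
  have hq : ∀ n, q (n + 1) = nx (q n) := fun n => Function.iterate_succ_apply' nx n q0
  have hmono : Monotone (fun n => (q n).1.1) := by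
    refine monotone_nat_of_le_succ (fun n => ?_)
    rw [hq]
    exact (hnx (q n)).1
  have hlt : ∀ n, (q n).1.2 < (q (n + 1)).1.2 := by
    intro n
    rw [hq]
    exact (hnx (q n)).2.2
  have hag : ∀ n k, n ≤ k → ∀ i ∈ (q n).1.1, (q (k + 1)).1.2.1 i = w.1 i := by
    intro n k hnk i hi
    rw [hq]
    exact (hnx (q k)).2.1 i (hmono hnk hi)
  have ht : Tendsto (fun n => (q (n + 1)).1.2) atTop (𝓝 w) := by
    refine tendsto_of_eventually (fun i => ?_)
    by_cases hi : ∃ n, i ∈ (q n).1.1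
    · obtain ⟨n, hn⟩ := hi
      filter_upwards [eventually_ge_atTop n] with k hk
      exact hag n k hk i hn
    · push Not at hi
      refine Filter.Eventually.of_forall (fun k => ?_)
      have h1 : w.1 i = ⊥ := notMem_supp.mp (fun hcon => hi 0 ((q 0).2.2.2.1 hcon))
      have h2 : (q (k + 1)).1.2.1 i = ⊥ :=
        notMem_supp.mp (fun hcon => hi (k + 1) ((q (k + 1)).2.2.2.2.2.2.1 hcon))
      rw [h1, h2]
  refine no_inc hS ht (fun n => ?_) (fun n => hlt (n + 1))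
  exact lt_of_le_of_lt (q n).2.2.2.2.2.2.2 (hlt n)

end

/-- The symmetric core: no cylinder is the union of two sets `A < B` both meeting all smaller
cylinders. -/
theorem no_pair (r : LinearOrder (Pow I)) (hS : HS r) (A B : Set (Pow I)) (D : Set I) (f : Pow I)
    (hD : Small D) (hAB : ∀ x ∈ cyl D f, x ∈ A ∨ x ∈ B) (hlt : ∀ a ∈ A, ∀ b ∈ B, r.lt a b)
    (hA : ∀ E g, Small E → D ⊆ E → g ∈ cyl D f → ∃ x ∈ A, x ∈ cyl E g)
    (hB : ∀ E g, Small E → D ⊆ E → g ∈ cyl D f → ∃ x ∈ B, x ∈ cyl E g) : False := by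
  classical
  let _ := r
  have hlt' : ∀ a ∈ A, ∀ b ∈ B, a < b := hlt
  by_cases h1 : ∃ E g, Small E ∧ D ⊆ E ∧ g ∈ cyl D f ∧ ∀ E' g', Small E' → E ⊆ E' →
      g' ∈ cyl E g → ∀ y ∈ A, y ∈ cyl E g → ∃ y' ∈ A, y' ∈ cyl E' g' ∧ y < y'
  · obtain ⟨E, g, hE, hDE, hg, h⟩ := h1
    obtain ⟨w, hwA, hwE⟩ := hA E g hE hDE hg
    exact no_cofinal (LO := r) hS A E g w hE hwA hwE h
  by_cases h2 : ∃ E g, Small E ∧ D ⊆ E ∧ g ∈ cyl D f ∧ ∀ E' g', Small E' → E ⊆ E' →
      g' ∈ cyl E g → ∀ y ∈ B, y ∈ cyl E g → ∃ y' ∈ B, y' ∈ cyl E' g' ∧ y' < y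
  · obtain ⟨E, g, hE, hDE, hg, h⟩ := h2
    obtain ⟨w, hwB, hwE⟩ := hB E g hE hDE hg
    exact no_cofinal (LO := rev r) hS.rev B E g w hE hwB hwE h
  push Not at h1 h2
  -- one step of the construction
  have hstep : ∀ q : {q : Set I × Pow I // Small q.1 ∧ D ⊆ q.1 ∧ q.2 ∈ cyl D f},
      ∃ (q' : {q : Set I × Pow I // Small q.1 ∧ D ⊆ q.1 ∧ q.2 ∈ cyl D f}) (y z : Pow I),
        q.1.1 ⊆ q'.1.1 ∧ q'.1.2 ∈ cyl q.1.1 q.1.2 ∧ y ∈ A ∧ y ∈ cyl q.1.1 q.1.2 ∧
        z ∈ B ∧ z ∈ cyl q.1.1 q.1.2 ∧ supp y ⊆ q'.1.1 ∧ supp z ⊆ q'.1.1 ∧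
        (∀ y' ∈ A, y' ∈ cyl q'.1.1 q'.1.2 → y' ≤ y) ∧
        (∀ z' ∈ B, z' ∈ cyl q'.1.1 q'.1.2 → z ≤ z') := by
    rintro ⟨⟨E, g⟩, hE, hDE, hg⟩
    obtain ⟨E1, g1, hE1, hEE1, hg1, y, hyA, hyE, hy⟩ := h1 E g hE hDE hg
    have hg1f : g1 ∈ cyl D f := cyl_subset hDE hg hg1
    obtain ⟨E2, g2, hE2, hE12, hg2, z, hzB, hzE, hz⟩ := h2 E1 g1 hE1 (hDE.trans hEE1) hg1f
    have hg2E : g2 ∈ cyl E g := cyl_subset hEE1 hg1 hg2
    refine ⟨⟨⟨E2 ∪ (supp y ∪ supp z), g2⟩,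
      hE2.union ((small_supp y).union (small_supp z)),
      (hDE.trans (hEE1.trans hE12)).trans subset_union_left, cyl_subset hDE hg hg2E⟩, y, z,
      (hEE1.trans hE12).trans subset_union_left, hg2E, hyA, hyE, hzB,
      cyl_subset hEE1 hg1 hzE, ?_, ?_, ?_, ?_⟩
    · exact subset_union_left.trans subset_union_right
    · exact subset_union_right.trans subset_union_right
    · intro y' hy'A hy'
      have h3 : y' ∈ cyl E1 g1 := cyl_subset hE12 hg2 (cyl_mono subset_union_left _ hy')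
      exact hy y' hy'A h3
    · intro z' hz'B hz'
      have h3 : z' ∈ cyl E2 g2 := cyl_mono subset_union_left _ hz'
      exact hz z' hz'B h3
  choose nx Y Z hnx using hstep
  let q0 : {q : Set I × Pow I // Small q.1 ∧ D ⊆ q.1 ∧ q.2 ∈ cyl D f} :=
    ⟨⟨D, f⟩, hD, subset_rfl, self_mem_cyl D f⟩
  let q : ℕ → {q : Set I × Pow I // Small q.1 ∧ D ⊆ q.1 ∧ q.2 ∈ cyl D f} := fun n => nx^[n] q0
  have hq : ∀ n, q (n + 1) = nx (q n) := fun n => Function.iterate_succ_apply' nx n q0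
  have hmono : Monotone (fun n => (q n).1.1) := by
    refine monotone_nat_of_le_succ (fun n => ?_)
    rw [hq]
    exact (hnx (q n)).1
  have hcoh : ∀ n k, n ≤ k → (q k).1.2 ∈ cyl (q n).1.1 (q n).1.2 := by
    intro n k hnk
    induction k, hnk using Nat.le_induction with
    | base => exact self_mem_cyl _ _
    | succ k hnk ih =>
      rw [hq]
      exact cyl_subset (hmono hnk) ih (hnx (q k)).2.1
  have hsm : Small (⋃ n, (q n).1.1) := by
    refine Small.iUnion ?_ (fun n => (q n).2.1)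
    rw [Cardinal.mk_nat]
    exact Cardinal.aleph0_le_aleph 1
  obtain ⟨x, hx, hxs⟩ := exists_lim (fun n => (q n).1.1) (fun n => (q n).1.2) hmono hcoh hsm
  have hconv : ∀ W : ℕ → Pow I, (∀ n, W n ∈ cyl (q n).1.1 (q n).1.2) →
      (∀ n, supp (W n) ⊆ (q (n + 1)).1.1) → Tendsto W atTop (𝓝 x) := by
    intro W hW1 hW2
    refine tendsto_of_eventually (fun i => ?_)
    by_cases hi : ∃ n, i ∈ (q n).1.1
    · obtain ⟨n, hn⟩ := hi
      filter_upwards [eventually_ge_atTop n] with k hk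
      rw [hW1 k i (hmono hk hn), hx k i (hmono hk hn)]
    · push Not at hi
      refine Filter.Eventually.of_forall (fun k => ?_)
      have e1 : x.1 i = ⊥ := by
        refine notMem_supp.mp (fun hcon => ?_)
        obtain ⟨n, hn⟩ := mem_iUnion.mp (hxs hcon)
        exact hi n hn
      have e2 : (W k).1 i = ⊥ := notMem_supp.mp (fun hcon => hi (k + 1) (hW2 k hcon))
      rw [e1, e2]
  have hYt : Tendsto (fun n => Y (q n)) atTop (𝓝 x) := by
    refine hconv _ (fun n => (hnx (q n)).2.2.2.1) (fun n => ?_)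
    rw [hq]
    exact (hnx (q n)).2.2.2.2.2.2.1
  have hZt : Tendsto (fun n => Z (q n)) atTop (𝓝 x) := by
    refine hconv _ (fun n => (hnx (q n)).2.2.2.2.2.1) (fun n => ?_)
    rw [hq]
    exact (hnx (q n)).2.2.2.2.2.2.2.1
  have hYd : ∀ n, Y (q (n + 1)) ≤ Y (q n) := by
    intro n
    refine (hnx (q n)).2.2.2.2.2.2.2.2.1 _ (hnx (q (n + 1))).2.2.1 ?_
    have := (hnx (q (n + 1))).2.2.2.1
    rw [hq] at this ⊢
    exact this
  have hZi : ∀ n, Z (q n) ≤ Z (q (n + 1)) := by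
    intro n
    refine (hnx (q n)).2.2.2.2.2.2.2.2.2 _ (hnx (q (n + 1))).2.2.2.2.1 ?_
    have := (hnx (q (n + 1))).2.2.2.2.2.1
    rw [hq] at this ⊢
    exact this
  have hxD : x ∈ cyl D f := hx 0
  rcases hAB x hxD with hxA | hxB
  · refine no_dec (LO := rev r) hS.rev hZt (fun n => ?_) (fun n => ?_)
    · exact hlt' x hxA (Z (q n)) (hnx (q n)).2.2.2.2.1
    · exact hZi n
  · exact no_dec (LO := r) hS hYt (fun n => hlt' (Y (q n)) (hnx (q n)).2.2.1 x hxB) hYd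

/-- Splitting: below every condition there are two conditions (with the same domain) whose
cylinders are separated by the order. -/
theorem splitting (hI : Cardinal.aleph.{0} 1 < #I) (r : LinearOrder (Pow I)) (hS : HS r)
    (D : Set I) (f : Pow I) (hD : Small D) :
    ∃ (E : Set I) (g h : Pow I), Small E ∧ D ⊆ E ∧ g ∈ cyl D f ∧ h ∈ cyl D f ∧
      ∀ u ∈ cyl E g, ∀ v ∈ cyl E h, r.lt u v := by
  classical
  let _ := r
  by_contra hno
  have hno' : ∀ E g h, Small E → D ⊆ E → g ∈ cyl D f → h ∈ cyl D f →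
      ∃ u ∈ cyl E g, ∃ v ∈ cyl E h, v ≤ u := by
    intro E g h hE hDE hg hh
    by_contra hcon
    push Not at hcon
    exact hno ⟨E, g, h, hE, hDE, hg, hh, hcon⟩
  have hno2 : ∀ E g E' h, Small E → D ⊆ E → Small E' → D ⊆ E' → g ∈ cyl D f → h ∈ cyl D f →
      ∃ u ∈ cyl E g, ∃ v ∈ cyl E' h, v ≤ u := by
    intro E g E' h hE hDE hE' _ hg hh
    obtain ⟨u, hu, v, hv, huv⟩ := hno' (E ∪ E') g h (hE.union hE')
      (hDE.trans subset_union_left) hg hh
    exact ⟨u, cyl_mono subset_union_left _ hu, v, cyl_mono subset_union_right _ hv, huv⟩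
  let A : Set (Pow I) := {w | w ∈ cyl D f ∧ ∃ E g, Small E ∧ D ⊆ E ∧ g ∈ cyl D f ∧
    ∀ u ∈ cyl E g, w ≤ u}
  let B : Set (Pow I) := {w | w ∈ cyl D f ∧ w ∉ A}
  refine no_pair r hS A B D f hD ?_ ?_ ?_ ?_
  · intro x hx
    by_cases h : x ∈ A
    · exact Or.inl h
    · exact Or.inr ⟨hx, h⟩
  · rintro a ⟨-, E, g, hE, hDE, hg, ha⟩ b ⟨hbf, hbA⟩
    change a < b
    by_contra hcon
    rw [not_lt] at hcon
    exact hbA ⟨hbf, E, g, hE, hDE, hg, fun u hu => hcon.trans (ha u hu)⟩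
  · intro E g hE hDE hg
    obtain ⟨m, hm, hmin⟩ := (hS _ (isClosed_cyl E g) (cyl_nonempty E g)).1
    exact ⟨m, ⟨cyl_subset hDE hg hm, E, g, hE, hDE, hg, hmin⟩, hm⟩
  · intro E g hE hDE hg
    obtain ⟨z, hz, hmax⟩ := (hS _ (isClosed_cyl E g) (cyl_nonempty E g)).2
    have hmax' : ∀ y ∈ cyl E g, y ≤ z := hmax
    refine ⟨z, ⟨cyl_subset hDE hg hz, ?_⟩, hz⟩
    rintro ⟨-, E', h, hE', hDE', hh, hz'⟩
    obtain ⟨u, hu, v, hv, hvu⟩ := hno2 E g E' h hE hDE hE' hDE' hg hh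
    have h1 : z ≤ v := hz' v hv
    have h2 : u ≤ z := hmax' u hu
    have h3 : v = z := le_antisymm (hvu.trans h2) h1
    rw [h3] at hv
    obtain ⟨b, hb⟩ := (hE.union hE').exists_notMem hI
    obtain ⟨c, hc⟩ := exists_ne (z.1 b)
    -- modify `z` at `b`
    let w : Pow I := mk' (supp z ∪ {b}) ((small_supp z).union (by
        rw [Small, Cardinal.mk_singleton]
        exact (Cardinal.one_le_aleph0).trans (Cardinal.aleph0_le_aleph 1)))
      (Function.update z.1 b c) (by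
        intro i hi
        rw [mem_union, not_or, mem_singleton_iff] at hi
        rw [Function.update_of_ne hi.2]
        exact notMem_supp.mp hi.1)
    have hwv : ∀ i, i ≠ b → w.1 i = z.1 i := fun i hi => Function.update_of_ne hi _ _
    have hw1 : w ∈ cyl E g := fun i hi => by
      rw [hwv i (fun e => hb (Or.inl (e ▸ hi)))]
      exact hz i hi
    have hw2 : w ∈ cyl E' h := fun i hi => by
      rw [hwv i (fun e => hb (Or.inr (e ▸ hi)))]
      exact hv i hi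
    have hwz : w = z := le_antisymm (hmax' w hw1) (hz' w hw2)
    apply hc
    have hwb : w.1 b = c := by
      change Function.update z.1 b c b = c
      exact Function.update_self b c z.1
    rw [← hwb, hwz]

end Pool.Agent.Helper90.SK
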