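import Mathlib
import Pool.Agent.Helper90.SK.Split

set_option autoImplicit false

/-!
# The decreasing closed copy of `ω₁`
-/

namespace Pool.Agent.Helper90.SK

open Set Cardinal Filter Topology

variable {I : Type}

/-- Conditions. -/
def Cond (I : Type) : Type := {q : Set I × Pow I // Small q.1}

/-- `q'` extends `q`. -/
def Cond.Ext (q q' : Cond I) : Prop := q.1.1 ⊆ q'.1.1 ∧ q'.1.2 ∈ cyl q.1.1 q.1.2

theorem Cond.Ext.trans {p q s : Cond I} (h1 : p.Ext q) (h2 : q.Ext s) : p.Ext s :=
  ⟨h1.1.trans h2.1, cyl_subset h1.1 h1.2 h2.2⟩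

theorem small_empty : Small (∅ : Set I) := by
  simp [Small]

/-- The zero point. -/
noncomputable def zero : Pow I := mk' ∅ small_empty (fun _ => ⊥) (fun _ _ => rfl)

/-- What the `η`-th condition has to satisfy: it is the union of the earlier ones, after applying
`N`. -/
def Spec (N : Cond I → Cond I) (η : Om) (P : ∀ β, β < η → Cond I) (c : Cond I) : Prop :=
  c.1.1 = (⋃ β : Iio η, (N (P β.1 β.2)).1.1) ∧
    ∀ β (hβ : β < η), c.1.2 ∈ cyl (N (P β hβ)).1.1 (N (P β hβ)).1.2

open Classical in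
/-- The chain of conditions. -/
noncomputable def chain (N : Cond I → Cond I) : Om → Cond I :=
  wellFounded_lt.fix (fun η P => if h : ∃ c : Cond I, Spec N η P c then h.choose
    else ⟨⟨∅, zero⟩, small_empty⟩)

theorem chain_eq (N : Cond I → Cond I) (η : Om)
    (h : ∃ c : Cond I, Spec N η (fun β _ => chain N β) c) :
    Spec N η (fun β _ => chain N β) (chain N η) := by
  have h1 : chain N η = h.choose :=
    (WellFounded.fix_eq (wellFounded_lt (α := Om)) _ η).trans (dif_pos h)
  rw [h1]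
  exact h.choose_spec

theorem chain_spec (N : Cond I → Cond I) (hN : ∀ c : Cond I, c.Ext (N c)) (η : Om) :
    Spec N η (fun β _ => chain N β) (chain N η) := by
  refine (wellFounded_lt (α := Om)).induction
    (C := fun η => Spec N η (fun β _ => chain N β) (chain N η)) η (fun η ih => ?_)
  apply chain_eq
  have hext : ∀ β γ : Iio η, β < γ → (N (chain N β.1)).Ext (N (chain N γ.1)) := by
    intro β γ hβγ
    have h := ih γ.1 γ.2
    refine Cond.Ext.trans ⟨?_, h.2 β.1 hβγ⟩ (hN _)
    rw [h.1]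
    exact subset_iUnion (fun β : Iio γ.1 => (N (chain N β.1)).1.1) ⟨β.1, hβγ⟩
  have hcard : #(Iio η) ≤ Cardinal.aleph.{0} 1 :=
    (Cardinal.le_aleph0_iff_set_countable.mpr (countable_Iio_Om η)).trans
      (Cardinal.aleph0_le_aleph 1)
  have hs : Small (⋃ β : Iio η, (N (chain N β.1)).1.1) :=
    Small.iUnion hcard (fun β => (N (chain N β.1)).2)
  obtain ⟨x, hx, -⟩ := exists_lim (fun β : Iio η => (N (chain N β.1)).1.1)
    (fun β : Iio η => (N (chain N β.1)).1.2)
    (by
      intro β γ h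
      rcases h.eq_or_lt with rfl | h
      · exact subset_rfl
      · exact (hext β γ h).1)
    (by
      intro β γ h
      rcases h.eq_or_lt with rfl | h
      · exact self_mem_cyl _ _
      · exact (hext β γ h).2) hs
  exact ⟨⟨⟨_, x⟩, hs⟩, rfl, fun β hβ => hx ⟨β, hβ⟩⟩

theorem not_HS (hI : Cardinal.aleph.{0} 1 < #I) (r : LinearOrder (Pow I)) (hS : HS r) : False := by
  classical
  let _ := r
  have hsp : ∀ c : Cond I, ∃ (c' : Cond I) (h : Pow I), c.Ext c' ∧ h ∈ cyl c.1.1 c.1.2 ∧
      ∀ u ∈ cyl c'.1.1 c'.1.2, ∀ v ∈ cyl c'.1.1 h, u < v := by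
    rintro ⟨⟨D, f⟩, hD⟩
    obtain ⟨E, g, h, hE, hDE, hg, hh, hlt⟩ := splitting hI r hS D f hD
    exact ⟨⟨⟨E, g⟩, hE⟩, h, ⟨hDE, hg⟩, hh, hlt⟩
  choose N S hN hS1 hS2 using hsp
  let P : Om → Cond I := chain N
  have hP : ∀ η, Spec N η (fun β _ => P β) (P η) := chain_spec N hN
  have hPN : ∀ β η, β < η → (N (P β)).Ext (P η) := by
    intro β η h
    refine ⟨?_, (hP η).2 β h⟩
    rw [(hP η).1]
    exact subset_iUnion (fun β : Iio η => (N (P β.1)).1.1) ⟨β, h⟩
  have hNN : ∀ β η, β ≤ η → (N (P β)).Ext (N (P η)) := by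
    intro β η h
    rcases h.eq_or_lt with rfl | h
    · exact ⟨subset_rfl, self_mem_cyl _ _⟩
    · exact (hPN β η h).trans (hN _)
  -- the union of all domains and the free coordinate
  let D : Set I := ⋃ β : Om, (N (P β)).1.1
  have hD : Small D := Small.iUnion (le_of_eq mk_Om) (fun β => (N (P β)).2)
  obtain ⟨b, hb⟩ := hD.exists_notMem hI
  -- the first stage at which a coordinate appears
  let s : I → Om := fun i => if h : {β : Om | i ∈ (N (P β)).1.1}.Nonempty then
    (wellFounded_lt (α := Om)).min _ h else ⊥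
  have hs1 : ∀ i ∈ D, i ∈ (N (P (s i))).1.1 := by
    intro i hi
    have h : {β : Om | i ∈ (N (P β)).1.1}.Nonempty := by
      obtain ⟨β, hβ⟩ := mem_iUnion.mp hi
      exact ⟨β, hβ⟩
    have h1 := (wellFounded_lt (α := Om)).min_mem _ h
    simp only [s, dif_pos h]
    exact h1
  have hs2 : ∀ i β, i ∈ (N (P β)).1.1 → s i ≤ β := by
    intro i β hi
    have h : {β : Om | i ∈ (N (P β)).1.1}.Nonempty := ⟨β, hi⟩
    simp only [s, dif_pos h]
    exact (wellFounded_lt (α := Om)).min_le hi
  -- the points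
  let φ0 : Om → I → Om := fun η i => if i ∈ D then
    (if η ≤ s i then (S (P (s i))).1 i else (N (P (s i))).1.2.1 i) else if i = b then η else ⊥
  have hφ0 : ∀ η, ∀ i ∉ D ∪ {b}, φ0 η i = ⊥ := by
    intro η i hi
    rw [mem_union, not_or, mem_singleton_iff] at hi
    simp only [φ0, hi.1, hi.2, if_false]
  have hsm : Small (D ∪ {b}) := hD.union (by
    rw [Small, Cardinal.mk_singleton]
    exact (Cardinal.one_le_aleph0).trans (Cardinal.aleph0_le_aleph 1))
  let φ : Om → Pow I := fun η => mk' (D ∪ {b}) hsm (φ0 η) (hφ0 η)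
  have hφD1 : ∀ η i, i ∈ D → η ≤ s i → (φ η).1 i = (S (P (s i))).1 i := by
    intro η i hi h
    change φ0 η i = _
    simp only [φ0, hi, h, if_true]
  have hφD2 : ∀ η i, i ∈ D → s i < η → (φ η).1 i = (N (P (s i))).1.2.1 i := by
    intro η i hi h
    change φ0 η i = _
    simp only [φ0, hi, not_le.mpr h, if_true, if_false]
  have hφb : ∀ η, (φ η).1 b = η := by
    intro η
    change φ0 η b = _
    simp only [φ0, hb, if_true, if_false]
  have hcont : Continuous φ := by
    refine Continuous.subtype_mk (f := φ0) ?_ _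
    refine continuous_pi (fun i => ?_)
    by_cases hi : i ∈ D
    · simp only [φ0, hi, if_true]
      refine continuous_const.if (fun a ha => ?_) continuous_const
      have : {η : Om | η ≤ s i} = Iic (s i) := rfl
      rw [this, (isClopen_Iic_Om (s i)).frontier_eq] at ha
      exact absurd ha (notMem_empty a)
    · simp only [φ0, hi, if_false]
      by_cases hib : i = b
      · simp only [hib, if_true]
        exact continuous_id
      · simp only [hib, if_false]
        exact continuous_const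
  -- the order relations
  have h1 : ∀ η, φ η ∈ cyl (N (P η)).1.1 (S (P η)) := by
    intro η i hi
    have hiD : i ∈ D := mem_iUnion.mpr ⟨η, hi⟩
    rcases (hs2 i η hi).eq_or_lt with h | h
    · rw [hφD1 η i hiD h.ge, h]
    · rw [hφD2 η i hiD h]
      have e1 := hPN (s i) η h
      rw [hS1 (P η) i (e1.1 (hs1 i hiD)), e1.2 i (hs1 i hiD)]
  have h2 : ∀ η η', η < η' → φ η' ∈ cyl (N (P η)).1.1 (N (P η)).1.2 := by
    intro η η' hlt i hi
    have hiD : i ∈ D := mem_iUnion.mpr ⟨η, hi⟩
    have h := hs2 i η hi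
    rw [hφD2 η' i hiD (h.trans_lt hlt)]
    exact ((hNN (s i) η h).2 i (hs1 i hiD)).symm
  have h3 : ∀ η η', η < η' → φ η' < φ η := fun η η' h =>
    hS2 (P η) _ (h2 η η' h) _ (h1 η)
  have hclosed : IsClosed (range φ) := by
    have : range φ = {x : Pow I | φ (x.1 b) = x} := by
      ext x
      constructor
      · rintro ⟨η, rfl⟩
        change φ ((φ η).1 b) = φ η
        rw [hφb]
      · intro hx
        exact ⟨_, hx⟩
    rw [this]
    exact isClosed_eq (hcont.comp (continuous_eval b)) continuous_id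
  obtain ⟨m, ⟨η, rfl⟩, hm⟩ := (hS _ hclosed (range_nonempty φ)).1
  obtain ⟨η', hη'⟩ := exists_gt η
  exact absurd (hm (φ η') ⟨η', rfl⟩) (not_le.mpr (h3 η η' hη'))

theorem not_staeckel (hI : Cardinal.aleph.{0} 1 < #I) :
    ¬ Pool.Agent.Helper51.SC.StaeckelCompact (Pow I) := by
  rintro ⟨r, hr⟩
  exact not_HS hI r hr

end Pool.Agent.Helper90.SK
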